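import Pool.Agent.W84.T.Defs
import Pool.Agent.W505.T.Rig
import Pool.Agent.W505.T.Cone
import Pool.Agent.W505.T.Cnt
import Pool.Agent.W359.T.OrdArc
import Pool.Agent.W318.T.Cls
import Pool.Agent.W791.T.Tri
import Pool.Agent.W412.T8.WT
import Pool.Agent.W597.T.Tr
import Pool.Agent.W131.T.Low
import Pool.Agent.W764.T.Fin8
import Pool.Agent.W78.EC.All

/-!
Project T8 (helper84): assembly.
-/

set_option autoImplicit false

namespace Pool.Agent.W84.T

/-- a positive proportion of the triangles has a given sign -/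
theorem triAll : S_TRI :=
  Pool.Agent.W791.T.Tri.tri Pool.Agent.W505.T.rig Pool.Agent.W505.T.cone'
    (Pool.Agent.W505.T.cnt Pool.Agent.W505.T.cone') Pool.Agent.W359.T.ord Pool.Agent.W359.T.arc
    Pool.Agent.W318.T.cls Pool.Agent.W78.EC.mrsAll

theorem wtAll : S_WT :=
  Pool.Agent.W412.T8.wt Pool.Agent.W78.EC.mainAll Pool.Agent.W305.EC.corr
    Pool.Agent.W368.EC.scnt

theorem trAll : S_TR := Pool.Agent.W597.T.Tr.tr Pool.Agent.W368.EC.scnt wtAll

theorem lowAll : S_LOW := Pool.Agent.W131.T8Low.low triAll Pool.Agent.W305.EC.corr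

/-- all eight patterns -/
theorem out8All : Out8 :=
  Pool.Agent.W764.T.out8 (Pool.Agent.W764.T.fin8 wtAll trAll lowAll)

end Pool.Agent.W84.T
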