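import Pool.Agent.W78.EC.Defs4
import Pool.Agent.W84.FP.Defs

/-!
Project T8 (helper84): all eight sign patterns of the Liouville function on Farey triangles
`(d, d', d + d' + 2 n)`, `d d' = n^2 + 1`. Definitions and statements.
-/

set_option autoImplicit false

namespace Pool.Agent.W84.T

open Finset Filter
open Pool.Agent.H376R2.MR
open Pool.Agent.W78.GA
open Pool.Agent.W78.EC (Gi cone aix SP)

/-! ### Part 1: the rigidity lemma -/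

/-- the vector with coordinates `x` with respect to `a`, `b` -/
def lc (a b : Gi) (x : ℕ × ℕ) : Gi := (x.1 : Gi) * a + (x.2 : Gi) * b

/-- the triangles `(v, u, v + u)` with `nm (v + u) ≤ X` -/
noncomputable def TS (X : ℝ) : Finset (Gi × Gi) := by
  classical
  exact (dedge 0 1 X).filter (fun e => 0 < ip e.1 e.2 ∧ (nm (e.1 + e.2) : ℝ) ≤ X)

/-- the sign of a triangle -/
def tg (e : Gi × Gi) : ℤ := gl e.1 * gl e.2 * gl (e.1 + e.2)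

/-- RIG: rigidity. If all triangles in the cone over `(a, b)` have the sign `c`, then `c λ` is
multiplicative along the Farey tree -/
def S_RIG : Prop := ∀ (c : ℤ) (X : ℝ) (a b : Gi), (c = 1 ∨ c = -1) → dt a b = 1 → 0 < ip a b →
  (∀ x y : ℕ × ℕ, (x.1 : ℤ) * y.2 - x.2 * y.1 = 1 → (nm (lc a b x + lc a b y) : ℝ) ≤ X →
    tg (lc a b x, lc a b y) = c) →
  ∀ x y : ℕ, Nat.Coprime x y → (nm (lc a b (x, y)) : ℝ) ≤ X →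
    c * gl (lc a b (x, y)) = (c * gl a) ^ x * (c * gl b) ^ y

/-- CONE: the cones over the coarse Farey edges -/
def S_CONE : Prop := ∀ Y X : ℝ, 2 ≤ Y →
  (∀ e ∈ edge 0 1 Y, 0 < ip e.1 e.2 ∧ ∀ z ∈ cone X e.1 e.2, ∃ x y : ℕ, 1 ≤ x ∧ 1 ≤ y ∧
    Nat.Coprime x y ∧ z = lc e.1 e.2 (x, y)) ∧
  (∀ z : Gi, prim z → Y < (nm z : ℝ) → (nm z : ℝ) ≤ X → ∃ e ∈ edge 0 1 Y, z ∈ cone X e.1 e.2) ∧
  (∀ e ∈ edge 0 1 Y, ∀ f ∈ edge 0 1 Y, ∀ z : Gi, z ∈ cone X e.1 e.2 → z ∈ cone X f.1 f.2 → e = f)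

/-- CNT: few vectors in the cones over a small set of coarse edges -/
def S_CNT : Prop := ∃ C : ℝ, 0 < C ∧ ∀ (Y X : ℝ) (E : Finset (Gi × Gi)), 2 ≤ Y → Y ≤ X →
  E ⊆ edge 0 1 Y →
  ((∑ e ∈ E, (cone X e.1 e.2).card : ℕ) : ℝ) ≤ C * X * Real.sqrt ((E.card : ℝ) / Y)

/-- ORD: a sector without coarse vectors lies in one cone -/
def S_ORD : Prop := ∀ (Y X : ℝ) (n : ℕ) (e : Gi × Gi) (z z' : Gi), 2 ≤ Y → Y ≤ X → 4 ≤ n →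
  e ∈ edge 0 1 Y → z ∈ cone X e.1 e.2 → prim z' → (nm z' : ℝ) ≤ X → aix n z = aix n z' →
  (∀ w ∈ pball 0 1 Y, aix n w ≠ aix n z) → z' ∈ cone X e.1 e.2

/-- ARC: few vectors in a sector -/
def S_ARC : Prop := ∃ C : ℝ, 0 < C ∧ ∀ (X : ℝ) (n : ℕ) (j : ℤ), 1 ≤ X → 1 ≤ n →
  (((pball 0 1 X).filter (fun z => aix n z = j)).card : ℝ) ≤ C * (X / n + 1)

open scoped Classical in
/-- CLS: many vectors in the class `1` modulo `4` -/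
def S_CLS : Prop := ∃ c₀ : ℝ, 0 < c₀ ∧ ∃ X₀ : ℝ, ∀ X : ℝ, X₀ ≤ X →
  c₀ * X ≤ (((pball 0 1 X).filter (fun z => 1 / 8 * X < (nm z : ℝ) ∧
    Pool.Agent.W84.FP.c1 4 z)).card : ℝ)

open scoped Classical in
/-- TRI: a positive proportion of the triangles has a given sign -/
def S_TRI : Prop := ∃ δ : ℝ, 0 < δ ∧ ∃ X₀ : ℝ, ∀ X : ℝ, X₀ ≤ X → ∀ c : ℤ, (c = 1 ∨ c = -1) →
  δ * X ≤ (((TS X).filter (fun e => tg e = c)).card : ℝ)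

/-! ### Part 2: ratio weights -/

/-- continuous functions of the ratio with compact support in `(0, ∞)` -/
structure Rt (A : ℝ) (φ : ℝ → ℝ) : Prop where
  one_lt : 1 < A
  cont : Continuous φ
  supp : ∀ r, φ r ≠ 0 → 1 / A ≤ r ∧ r ≤ A

/-- WT: one and two point correlations with ratio weights -/
def S_WT : Prop := ∀ (j : ℕ) (A : ℝ) (φ : ℝ → ℝ), Rt A φ → Tendsto (fun N : ℕ =>
  (∑ p ∈ SP N, (lam p.1 : ℝ) ^ j * lam p.2 * (φ ((p.2 : ℝ) / p.1) / p.1)) / Real.log N)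
    atTop (nhds 0)

/-- the third vertex: `d + d' + 2 n` if `d d' = n^2 + 1` -/
def t3 (p : ℕ × ℕ) : ℕ := p.1 + p.2 + 2 * Nat.sqrt (p.1 * p.2 - 1)

/-- TR: correlations with the third vertex -/
def S_TR : Prop := ∀ (j : ℕ) (A : ℝ) (φ : ℝ → ℝ), Rt A φ → Tendsto (fun N : ℕ =>
  (∑ p ∈ SP N, (lam p.1 : ℝ) ^ j * lam (t3 p) * (φ ((p.2 : ℝ) / p.1) / p.1)) / Real.log N)
    atTop (nhds 0)

open scoped Classical in
/-- LOW: lower bound for the triangles with given sign -/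
def S_LOW : Prop := ∃ δ A : ℝ, 0 < δ ∧ 1 < A ∧ ∃ N₀ : ℕ, ∀ N : ℕ, N₀ ≤ N → ∀ c : ℤ,
  (c = 1 ∨ c = -1) → δ * Real.log N ≤ ∑ p ∈ (SP N).filter (fun p =>
    lam p.1 * lam p.2 * lam (t3 p) = c ∧ 1 / A ≤ (p.2 : ℝ) / p.1 ∧ (p.2 : ℝ) / p.1 ≤ A),
    1 / (p.1 : ℝ)

open scoped Classical in
/-- FIN8: all eight patterns -/
def S_FIN8 : Prop := ∀ e₁ e₂ e₃ : ℤ, (e₁ = 1 ∨ e₁ = -1) → (e₂ = 1 ∨ e₂ = -1) →
  (e₃ = 1 ∨ e₃ = -1) → ∃ κ : ℝ, 0 < κ ∧ ∃ N₀ : ℕ, ∀ N : ℕ, N₀ ≤ N →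
    κ * Real.log N ≤ ∑ p ∈ (SP N).filter (fun p => lam p.1 = e₁ ∧ lam p.2 = e₂ ∧ lam (t3 p) = e₃),
      1 / (max p.1 p.2 : ℝ)

/-- OUT8: all eight patterns, in terms of `n` and its factorisations -/
def Out8 : Prop := ∀ e₁ e₂ e₃ : ℤ, (e₁ = 1 ∨ e₁ = -1) → (e₂ = 1 ∨ e₂ = -1) →
  (e₃ = 1 ∨ e₃ = -1) → ∃ κ : ℝ, 0 < κ ∧ ∃ N₀ : ℕ, ∀ N : ℕ, N₀ ≤ N →
    κ * Real.log N ≤ ∑ n ∈ Finset.Icc 1 N, ∑ d ∈ (Nat.divisors (n ^ 2 + 1)).filter (fun d =>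
      (-1 : ℤ) ^ ArithmeticFunction.cardFactors d = e₁ ∧
      (-1 : ℤ) ^ ArithmeticFunction.cardFactors ((n ^ 2 + 1) / d) = e₂ ∧
      (-1 : ℤ) ^ ArithmeticFunction.cardFactors (d + (n ^ 2 + 1) / d + 2 * n) = e₃),
      1 / (max (d : ℝ) ((n ^ 2 + 1) / d : ℕ))

end Pool.Agent.W84.T
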